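import Pool.Agent.Helper79.TL.Core

/-!
# TL-A1: an eigenvector of an operator of order five
-/

set_option autoImplicit false

open Module

namespace Pool.Agent.Helper79.TL.A1

/-- TL-A1 -/
theorem exists_eigen {K : Type} [Field K] {M : Type} [AddCommGroup M] [Module K M]
    (t : Module.End K M) (ht : t ^ 5 = 1) (ht1 : t ≠ 1) (_h5 : (5 : K) ≠ 0) (ζ : K) (hζ : ζ ^ 5 = 1)
    (hζ1 : ζ ≠ 1) : ∃ (ξ : K) (v : M), ξ ^ 5 = 1 ∧ ξ ≠ 1 ∧ v ≠ 0 ∧ t v = ξ • v := by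
  have hS : 1 + ζ + ζ ^ 2 + ζ ^ 3 + ζ ^ 4 = 0 := by
    have h : (ζ - 1) * (1 + ζ + ζ ^ 2 + ζ ^ 3 + ζ ^ 4) = 0 := by linear_combination hζ
    exact (mul_eq_zero.mp h).resolve_left (sub_ne_zero.mpr hζ1)
  obtain ⟨m, hm⟩ : ∃ m, t m ≠ m := by
    by_contra h
    push Not at h
    exact ht1 (LinearMap.ext h)
  have h5' : t (t (t (t (t m)))) = m := by
    have h := LinearMap.congr_fun ht m
    simpa [pow_succ] using h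
  obtain ⟨u, hu⟩ : ∃ u, u = t m - m := ⟨_, rfl⟩
  have hu0 : u ≠ 0 := by rw [hu]; exact sub_ne_zero.mpr hm
  have hSu : t (t (t (t u))) + t (t (t u)) + t (t u) + t u + u = 0 := by
    rw [hu]
    simp only [map_sub, h5']
    abel
  have e1 : ζ ^ 4 + ζ ^ 3 + ζ ^ 2 + ζ = -1 := by linear_combination hS
  have e2 : ζ ^ 4 * ζ ^ 3 + ζ ^ 4 * ζ ^ 2 + ζ ^ 4 * ζ + ζ ^ 3 * ζ ^ 2 + ζ ^ 3 * ζ + ζ ^ 2 * ζ = 1 := by
    linear_combination hS + (ζ ^ 2 + ζ + 2) * hζ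
  have e3 : ζ ^ 4 * ζ ^ 3 * ζ ^ 2 + ζ ^ 4 * ζ ^ 3 * ζ + ζ ^ 4 * ζ ^ 2 * ζ + ζ ^ 3 * ζ ^ 2 * ζ = -1 := by
    linear_combination hS + (ζ ^ 4 + ζ ^ 3 + ζ ^ 2 + ζ) * hζ
  have e4 : ζ ^ 4 * ζ ^ 3 * ζ ^ 2 * ζ = 1 := by
    linear_combination (ζ ^ 5 + 1) * hζ
  have p : ∀ k : ℕ, (ζ ^ k) ^ 5 = 1 := by
    intro k
    rw [← pow_mul, mul_comm, pow_mul, hζ, one_pow]
  have n2 : ζ ^ 2 ≠ 1 := by
    intro h
    apply hζ1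
    linear_combination hζ - (ζ ^ 3 + ζ) * h
  have n3 : ζ ^ 3 ≠ 1 := by
    intro h
    apply hζ1
    linear_combination (ζ ^ 3 + 1) * h - ζ * hζ
  have n4 : ζ ^ 4 ≠ 1 := by
    intro h
    apply hζ1
    linear_combination hζ - ζ * h
  by_cases h1 : t u - ζ ^ 4 • u = 0
  · exact ⟨ζ ^ 4, u, p 4, n4, hu0, sub_eq_zero.mp h1⟩
  by_cases h2 : t (t u - ζ ^ 4 • u) - ζ ^ 3 • (t u - ζ ^ 4 • u) = 0
  · exact ⟨ζ ^ 3, _, p 3, n3, h1, sub_eq_zero.mp h2⟩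
  by_cases h3 : t (t (t u - ζ ^ 4 • u) - ζ ^ 3 • (t u - ζ ^ 4 • u)) -
      ζ ^ 2 • (t (t u - ζ ^ 4 • u) - ζ ^ 3 • (t u - ζ ^ 4 • u)) = 0
  · exact ⟨ζ ^ 2, _, p 2, n2, h2, sub_eq_zero.mp h3⟩
  refine ⟨ζ, _, hζ, hζ1, h3, ?_⟩
  simp only [map_sub, map_smul]
  linear_combination (norm := module) hSu - (e1 • t (t (t u))) + e2 • t (t u) - e3 • t u + e4 • u

end Pool.Agent.Helper79.TL.A1
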